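import Mathlib
import Pool.Agent.Y734.N.Stms
import Pool.Agent.Y734.M.SUN.Main
import Pool.Agent.Y734.M.G5N.Main

/-!
# Job N-SUN: the normalised determinants of an integral point over `k` (helper77)
-/

set_option autoImplicit false

namespace Pool.Agent.Y734.N

namespace SUN

open Pool.Agent.Y734.M Pool.Agent.Y734.N NumberField

section

variable {k L : Type} [Field k] [Field L] [Algebra k L]

theorem norm_k (h : Module.finrank k L = 2) (q : k) :
    Algebra.norm k (algebraMap k L q) = q ^ 2 := by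
  have := Algebra.norm_algebraMap (R := k) (S := L) q
  rw [h] at this
  exact this

theorem norm_neg_k (h : Module.finrank k L = 2) (x : L) :
    Algebra.norm k (-x) = Algebra.norm k x := by
  have e : -x = algebraMap k L (-1) * x := by
    rw [map_neg, map_one]
    ring
  rw [e, map_mul, norm_k h]
  ring

/-- the norm of an element which is integral after multiplication by a power of the primes -/
theorem int_norm [NumberField k] [NumberField L] (h : Module.finrank k L = 2) (S : Finset ℕ)
    (m : ℕ) (a : L) (ha : IsIntegral ℤ ((∏ p ∈ S, (p : L)) ^ m * a)) :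
    IsIntegral ℤ ((∏ p ∈ S, (p : k)) ^ (2 * m) * Algebra.norm k a) := by
  have h1 : IsIntegral ℤ (Algebra.norm k ((∏ p ∈ S, (p : L)) ^ m * a)) :=
    Algebra.isIntegral_norm k ha
  have h2 : (∏ p ∈ S, (p : L)) ^ m = algebraMap k L ((∏ p ∈ S, (p : k)) ^ m) := by
    rw [map_pow, map_prod]
    simp only [map_natCast]
  rw [map_mul, h2, norm_k h, ← pow_mul, mul_comm m 2] at h1
  exact h1

theorem SU_norm [NumberField k] [NumberField L] (h : Module.finrank k L = 2) {S : Finset ℕ}
    {a : L} (ha : SU S a) : SU S (Algebra.norm k a) := by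
  have : FiniteDimensional k L := Module.finite_of_finrank_pos (by rw [h]; norm_num)
  obtain ⟨h0, m, h1, h2⟩ := ha
  refine ⟨Algebra.norm_ne_zero_iff.2 h0, 2 * m, int_norm h S m a h1, ?_⟩
  have h3 : (Algebra.norm k a)⁻¹ = Algebra.norm k a⁻¹ := by
    refine (eq_inv_of_mul_eq_one_left ?_).symm
    rw [← map_mul, inv_mul_cancel₀ h0, map_one]
  rw [h3]
  exact int_norm h S m a⁻¹ h2

end

/-- Job SUN -/
theorem sun (hg : G5nStmt) : SunStmt := by
  intro k L _ _ _ _ _ S h n P hP
  have hsu : ∀ i j, i ≠ j → Pool.Agent.Y734.M.SU S (Pool.Agent.Y734.M.nw P i j) :=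
    Pool.Agent.Y734.M.SUN.SU_nw hP
  refine ⟨fun i j => ?_, fun i j hij => ?_, fun i hi => ?_, ?_, fun f _ => ?_⟩
  · unfold nu
    rw [Pool.Agent.Y734.M.SUN.nw_swap i j, norm_neg_k h]
  · exact SU_norm h (hsu i j hij)
  · unfold nu
    rw [Pool.Agent.Y734.M.SUN.nw_zero hP.1 i hi, map_one]
  · unfold nu
    rw [Pool.Agent.Y734.M.SUN.nw_one_two hP.1, map_one]
  · have e : Pool.Agent.Y734.M.pull (nu k P) f = fun i j =>
        Algebra.norm k (Pool.Agent.Y734.M.dt (P 0) (P 1) * Pool.Agent.Y734.M.dt (P 0) (P 2) *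
          Pool.Agent.Y734.M.dt (P 1) (P 2))⁻¹ *
          Algebra.norm k (Pool.Agent.Y734.M.sc P (f i)) *
          Algebra.norm k (Pool.Agent.Y734.M.sc P (f j)) *
            (fun i j => Algebra.norm k (Pool.Agent.Y734.M.dt (P (f i)) (P (f j)))) i j := by
      funext i j
      unfold Pool.Agent.Y734.M.pull nu Pool.Agent.Y734.M.nw
      rw [← map_mul, ← map_mul, ← map_mul]
      congr 1
      rw [div_eq_mul_inv]
      ring
    rw [e, Pool.Agent.Y734.M.G5N.g5_scale _
      (fun i => Algebra.norm k (Pool.Agent.Y734.M.sc P (f i))), hg k L h (fun i => P (f i)),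
      mul_zero]

end SUN

end Pool.Agent.Y734.N
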